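import Pool.Agent.H.MP_3c459d_an.A

set_option autoImplicit false
open Set Metric Filter Topology
open scoped ENNReal

namespace Pool.Agent.Results.MP_3c459d_an.No

noncomputable def lempert (D : Set (EuclideanSpace ℂ (Fin 3))) (z w : EuclideanSpace ℂ (Fin 3)) :
    ℝ≥0∞ :=
  ⨅ (f : ℂ → EuclideanSpace ℂ (Fin 3)) (_ : DifferentiableOn ℂ f (ball 0 1))
    (_ : MapsTo f (ball 0 1) D) (a : ℂ) (b : ℂ) (_ : ‖a‖ < 1) (_ : ‖b‖ < 1) (_ : f a = z)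
    (_ : f b = w), ENNReal.ofReal (Real.artanh ‖(a - b) / (1 - (starRingEnd ℂ) a * b)‖)

noncomputable def kob (D : Set (EuclideanSpace ℂ (Fin 3))) (z w : EuclideanSpace ℂ (Fin 3)) :
    ℝ≥0∞ :=
  ⨅ (n : ℕ) (x : ℕ → EuclideanSpace ℂ (Fin 3)) (_ : x 0 = z) (_ : x (n + 1) = w),
    ∑ i ∈ Finset.range (n + 1), lempert D (x i) (x (i + 1))

theorem result : ∃ (D : Set (EuclideanSpace ℂ (Fin 3))) (ζ z₀ : EuclideanSpace ℂ (Fin 3))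
    (z : ℕ → EuclideanSpace ℂ (Fin 3)),
    IsOpen D ∧ IsConnected D ∧
    (∀ v ∈ D, ∀ (θ : Fin 3 → ℝ) (w : EuclideanSpace ℂ (Fin 3)),
      (∀ j, w j = Complex.exp (θ j * Complex.I) * v j) → w ∈ D) ∧
    (∀ K ⊆ D, IsCompact K → IsCompact {v ∈ D | ∀ f : EuclideanSpace ℂ (Fin 3) → ℂ,
      DifferentiableOn ℂ f D → ∀ M : ℝ, (∀ w ∈ K, ‖f w‖ ≤ M) → ‖f v‖ ≤ M}) ∧
    ζ ∈ frontier D ∧ (∀ j, ζ j ≠ 0) ∧ z₀ ∈ D ∧ (∀ m, z m ∈ D) ∧ Tendsto z atTop (𝓝 ζ) ∧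
    (∀ m, kob D z₀ (z m) ≠ ⊤) ∧
    Tendsto (fun m => (kob D z₀ (z m)).toReal + 1 / 2 * Real.log (infDist (z m) (frontier D)))
      atTop atBot := by
  open Pool.Agent.H.MP_3c459d_an in
  have hm : ∀ m : ℕ, pt ((m + 1 : ℕ) : ℝ) 1 ∈ D := fun m =>
    pt_mem _ (by omega) (by simp; positivity)
  refine ⟨D, !₂[1, 1, 1], 0, fun m => pt ((m + 1 : ℕ) : ℝ) 1, D_open, D_conn,
    fun v hv θ w hw => D_mono hv fun i => by rw [hw, norm_mul, Complex.norm_exp_ofReal_mul_I, one_mul],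
    hull, ?_, fun j => by fin_cases j <;> simp, zero_mem, hm, pt_tend,
    fun m => ne_top_of_le_ne_top ENNReal.ofReal_ne_top (kob_le (m + 1) (by omega)), final⟩
  rw [D_open.frontier_eq]
  exact ⟨mem_closure_of_tendsto pt_tend (Eventually.of_forall hm), one_not⟩

end Pool.Agent.Results.MP_3c459d_an.No
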